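import Pool.Agent.H80.PK.FStmts

set_option autoImplicit false

namespace Pool.PK

private lemma krd_class_eq {A : Type} [Ring A] {n : ℕ} (e f : Idem A n) (h : Similar e.1 f.1) :
    (QuotientAddGroup.mk (FreeAbelianGroup.of (⟨n, e⟩ : Σ n, Idem A n)) : K0 A)
      = QuotientAddGroup.mk (FreeAbelianGroup.of (⟨n, f⟩ : Σ n, Idem A n)) := by
  rw [QuotientAddGroup.eq, neg_add_eq_sub]
  have h1 : FreeAbelianGroup.of (⟨n, e⟩ : Σ n, Idem A n) - FreeAbelianGroup.of ⟨n, f⟩
      ∈ AddSubgroup.closure (rel0 A) :=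
    AddSubgroup.subset_closure (Or.inl ⟨n, e, f, h, rfl⟩)
  have h2 := neg_mem h1
  rwa [neg_sub] at h2

private lemma krd_map_of {A B : Type} [Ring A] [Ring B] (φ : A →+* B) {n : ℕ} (e : Idem A n) :
    K0map φ (QuotientAddGroup.mk (FreeAbelianGroup.of (⟨n, e⟩ : Σ n, Idem A n)))
      = QuotientAddGroup.mk (FreeAbelianGroup.of (⟨n, idemMap φ e⟩ : Σ n, Idem B n)) := by
  unfold K0map
  rw [QuotientAddGroup.map_mk, FreeAbelianGroup.map_of_apply]
  rfl

theorem KRD : KRDStmt := by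
  intro A B _ _ _ _ φ εA εB hεA hεB hlift hbij
  have hmap : (K0red εA).map (K0map (φ : A →+* B)) = K0red εB := by
    apply le_antisymm
    · rw [AddSubgroup.map_le_iff_le_comap]
      unfold K0red
      rw [AddSubgroup.closure_le]
      rintro z ⟨n, e, f, hef, rfl⟩
      rw [SetLike.mem_coe, AddSubgroup.mem_comap]
      rw [QuotientAddGroup.mk_sub, map_sub, krd_map_of, krd_map_of, ← QuotientAddGroup.mk_sub]
      apply AddSubgroup.subset_closure
      refine ⟨n, idemMap (φ : A →+* B) e, idemMap (φ : A →+* B) f, ?_, rfl⟩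
      intro i j
      have h1 := hεB (e.1 i j)
      have h2 := hεB (f.1 i j)
      have h3 := hef i j
      have g1 : (idemMap (φ : A →+* B) e).1 i j = φ (e.1 i j) := rfl
      have g2 : (idemMap (φ : A →+* B) f).1 i j = φ (f.1 i j) := rfl
      rw [g1, g2, h1, h2, h3]
    · conv_lhs => unfold K0red
      rw [AddSubgroup.closure_le]
      rintro z ⟨n, e, f, hef, rfl⟩
      obtain ⟨e1, u, hu, hue⟩ := hlift n e
      obtain ⟨f1, v, hv, hvf⟩ := hlift n f
      -- matrices over ℂ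
      have hcomp : ∀ x : Mat A n, εB.mapMatrix ((φ : A →+* B).mapMatrix x) = εA.mapMatrix x := by
        intro x
        ext i j
        exact hεB (x i j)
      have hD : εB.mapMatrix e.1 = εB.mapMatrix f.1 := by
        ext i j
        exact hef i j
      have hU : εB.mapMatrix u * εA.mapMatrix e1.1 = εB.mapMatrix e.1 * εB.mapMatrix u := by
        rw [← hcomp, ← map_mul, ← map_mul, hue]
      have hV : εB.mapMatrix v * εA.mapMatrix f1.1 = εB.mapMatrix e.1 * εB.mapMatrix v := by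
        rw [hD, ← hcomp, ← map_mul, ← map_mul, hvf]
      obtain ⟨U, hUe⟩ := hu.map (εB.mapMatrix : Mat B n →+* Mat ℂ n)
      obtain ⟨V, hVe⟩ := hv.map (εB.mapMatrix : Mat B n →+* Mat ℂ n)
      rw [← hUe] at hU
      rw [← hVe] at hV
      -- w = V⁻¹ U
      set W : (Mat ℂ n)ˣ := V⁻¹ * U with hW
      have hWE : (W : Mat ℂ n) * εA.mapMatrix e1.1 = εA.mapMatrix f1.1 * (W : Mat ℂ n) := by
        have h1 : (V : Mat ℂ n) * ((W : Mat ℂ n) * εA.mapMatrix e1.1)
            = (V : Mat ℂ n) * (εA.mapMatrix f1.1 * (W : Mat ℂ n)) := by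
          rw [hW, Units.val_mul]
          rw [← mul_assoc (V : Mat ℂ n) (εA.mapMatrix f1.1) _, hV]
          rw [mul_assoc (εB.mapMatrix e.1), ← mul_assoc (V : Mat ℂ n) (_ * _),
            ← mul_assoc (V : Mat ℂ n), Units.mul_inv, one_mul]
          exact hU
        exact V.isUnit.mul_left_cancel h1
      set W' : (Mat A n)ˣ := Units.map ((algebraMap ℂ A).mapMatrix : Mat ℂ n →+* Mat A n).toMonoidHom W
        with hW'
      have hεW : εA.mapMatrix (W' : Mat A n) = (W : Mat ℂ n) := by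
        ext i j
        exact hεA ((W : Mat ℂ n) i j)
      have hεWi : εA.mapMatrix ((W'⁻¹ : (Mat A n)ˣ) : Mat A n) = ((W⁻¹ : (Mat ℂ n)ˣ) : Mat ℂ n) := by
        rw [hW', ← map_inv]
        ext i j
        exact hεA (((W⁻¹ : (Mat ℂ n)ˣ) : Mat ℂ n) i j)
      let e2 : Idem A n := ⟨(W' : Mat A n) * e1.1 * ((W'⁻¹ : (Mat A n)ˣ) : Mat A n), by
        have h1 := e1.2
        calc (W' : Mat A n) * e1.1 * ((W'⁻¹ : (Mat A n)ˣ) : Mat A n)
              * ((W' : Mat A n) * e1.1 * ((W'⁻¹ : (Mat A n)ˣ) : Mat A n))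
            = (W' : Mat A n) * e1.1 * (((W'⁻¹ : (Mat A n)ˣ) : Mat A n) * (W' : Mat A n)) * e1.1
              * ((W'⁻¹ : (Mat A n)ˣ) : Mat A n) := by noncomm_ring
          _ = (W' : Mat A n) * (e1.1 * e1.1) * ((W'⁻¹ : (Mat A n)ˣ) : Mat A n) := by
            rw [Units.inv_mul]
            noncomm_ring
          _ = _ := by rw [h1]⟩
      have he2 : Similar e1.1 e2.1 := by
        refine ⟨(W' : Mat A n), W'.isUnit, ?_⟩
        show (W' : Mat A n) * e1.1
          = (W' : Mat A n) * e1.1 * ((W'⁻¹ : (Mat A n)ˣ) : Mat A n) * (W' : Mat A n)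
        rw [mul_assoc _ _ (W' : Mat A n), Units.inv_mul, mul_one]
      have hεe2 : εA.mapMatrix e2.1 = εA.mapMatrix f1.1 := by
        show εA.mapMatrix ((W' : Mat A n) * e1.1 * ((W'⁻¹ : (Mat A n)ˣ) : Mat A n)) = _
        rw [map_mul, map_mul, hεW, hεWi, hWE, mul_assoc, Units.mul_inv, mul_one]
      have hgen : (QuotientAddGroup.mk (FreeAbelianGroup.of (⟨n, e2⟩ : Σ n, Idem A n)
          - FreeAbelianGroup.of ⟨n, f1⟩) : K0 A) ∈ K0red εA := by
        apply AddSubgroup.subset_closure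
        refine ⟨n, e2, f1, ?_, rfl⟩
        intro i j
        have := congrFun (congrFun hεe2 i) j
        exact this
      refine ⟨_, hgen, ?_⟩
      rw [QuotientAddGroup.mk_sub, map_sub, ← krd_class_eq e1 e2 he2, krd_map_of, krd_map_of,
        QuotientAddGroup.mk_sub]
      congr 1
      · exact krd_class_eq _ _ ⟨u, hu, hue⟩
      · exact krd_class_eq _ _ ⟨v, hv, hvf⟩
  exact ⟨((K0red εA).equivMapOfInjective _ hbij.1).trans (AddEquiv.addSubgroupCongr hmap)⟩

end Pool.PK
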